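import Pool.Agent.MP_ed9623_an.H77.SpecX

/-! The boundary vorticity is a smooth bounded function of time. -/

open MeasureTheory Filter Topology Set
open scoped ContDiff

namespace Pool.Agent.MP_ed9623_an.H77

namespace CT

theorem norm_le {v : E6} {R : ℝ} (h : Nb R (vl v) (gj v)) :
    ‖v‖ ≤ 1 + Fintype.card Ix * R ^ 2 := by
  have h1 : ‖v‖ ^ 2 ≤ Fintype.card Ix * R ^ 2 := by
    rw [PiLp.norm_sq_eq_of_L2, ← nsmul_eq_mul]
    refine Finset.sum_le_card_nsmul _ _ _ ?_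
    rintro ⟨j, _ | i⟩ -
    · exact pow_le_pow_left₀ (norm_nonneg _) ((nm_coe _).symm.trans_le (h j).1) 2
    · exact pow_le_pow_left₀ (norm_nonneg _) ((nm_coe _).symm.trans_le ((h j).2 i)) 2
  nlinarith [sq_nonneg (‖v‖ - 1), norm_nonneg v]

theorem nm_z {Ω : Set P} {g : Fin 2 → P → ℝ} {R : ℝ} {a w : ℝ → E6} (h : Pv Ω g R a w) (t : ℝ)
    (j : Fin 2) : nm (vl (deriv w t) j) ≤ R := by
  have h1 := (h.p1 t).mf j
  have h2 := (h.p2 t).mf j
  have h3 := nm_sub_le h2.1 h1.1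
  rw [show (fun x => g j x - (vl (deriv a t) j x - vl (deriv w t) j x) -
    (g j x - (vl (deriv a t) j x + vl (deriv w t) j x))) = fun x => 2 * vl (deriv w t) j x from
    funext fun x => by ring, nm_cmul, abs_two] at h3
  linarith [h1.2, h2.2]

end CT

open CT in
theorem rowCT : OfCT := by
  intro Ω g R a w ζ h hζ
  obtain ⟨l₁, h1⟩ := exists_ip fun j => (hζ j).m2
  obtain ⟨l₂, h2⟩ := exists_di hζ
  obtain ⟨b, h3⟩ := exists_tl hζ
  have e : cT a w ζ = fun t => l₁ (deriv w t) + l₂ (w t) - b (a t) (w t) - b (w t) (a t) :=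
    funext fun t => by rw [h1, h2, h3, h3]; rfl
  refine ⟨?_, ?_⟩
  · rw [e]
    exact (((l₁.contDiff.comp (contDiff_infty_iff_deriv.1 h.sw).2).add
      (l₂.contDiff.comp h.sw)).sub ((b.contDiff.comp h.sa).clm_apply h.sw)).sub
      ((b.contDiff.comp h.sw).clm_apply h.sa)
  · obtain ⟨A, hA⟩ : ∃ A : ℝ, ∀ t, ‖a t‖ ≤ A := ⟨1 + Fintype.card Ix * R ^ 2 + R, fun t => by
      have h4 := norm_sub_le (a t + w t) (w t)
      rw [add_sub_cancel_right] at h4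
      linarith [norm_le (h.s1.2 t).nb, h.nw t]⟩
    refine ⟨∑ j, R * nm (ζ j) + ‖l₂‖ * R + ‖b‖ * A * R + ‖b‖ * R * A, fun t => ?_⟩
    have a1 : |l₁ (deriv w t)| ≤ ∑ j, R * nm (ζ j) := by
      rw [h1]
      exact (Finset.abs_sum_le_sum_abs _ _).trans (Finset.sum_le_sum fun j _ =>
        (abs_int_le (M2.coe _) (hζ j).m2).trans
          (mul_le_mul_of_nonneg_right (nm_z h t j) (nm_nonneg _)))
    have a2 : |l₂ (w t)| ≤ ‖l₂‖ * R := l₂.le_opNorm_of_le (h.nw t)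
    have a3 : |b (a t) (w t)| ≤ ‖b‖ * A * R := b.le_of_opNorm₂_le_of_le le_rfl (hA t) (h.nw t)
    have a4 : |b (w t) (a t)| ≤ ‖b‖ * R * A := b.le_of_opNorm₂_le_of_le le_rfl (h.nw t) (hA t)
    rw [e]
    rw [abs_le] at a1 a2 a3 a4 ⊢
    constructor <;> linarith [a1.1, a1.2, a2.1, a2.2, a3.1, a3.2, a4.1, a4.2]

end Pool.Agent.MP_ed9623_an.H77
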