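import Pool.Agent.MP_ed9623_an.H77.SpecX
import Pool.Agent.MP_ed9623_an.H6.Mix
import Pool.Agent.MP_ed9623_an.H9.Slice

/-! Functions of class `H²`: essential limit and mixed bounds for the derivatives. -/

open MeasureTheory Filter Topology Set

namespace Pool.Agent.MP_ed9623_an.H77

namespace Cont

theorem cs {g : ℝ → ℝ} {a b x y l : ℝ} (hg : MemLp g 2 volume) (hx : x ∈ Ioo a b)
    (hy : y ∈ Ioo a b) (hl : 0 < l) (h : |y - x| ≤ l) :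
    (∫ r in x..y, g r) ^ 2 ≤ l * ∫ r in Ioo a b, g r ^ 2 := by
  rcases le_total x y with h7 | h7
  · exact Slice.cs hg h7 hx.1.le hy.2.le hl (abs_le.1 h).2
  · rw [intervalIntegral.integral_symm, neg_sq]
    exact Slice.cs hg h7 hy.1.le hx.2.le hl (by linarith [(abs_le.1 h).1])

theorem small {C δ x l : ℝ} (hC : 0 ≤ C) (hδ : 0 < δ) (hl : l ≤ δ ^ 2 / (C + 1))
    (h : x ^ 2 ≤ l * C) : |x| ≤ δ := by
  refine abs_le.2 (abs_le_of_sq_le_sq' (h.trans ((mul_le_mul_of_nonneg_right hl hC).trans ?_)) hδ.le)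
  rw [div_mul_eq_mul_div, div_le_iff₀ (by positivity)]
  nlinarith [sq_nonneg δ]

theorem osc (hF : FtcS) (hS : SliceS) {r : ℝ} {f fY fS g : P → ℝ} (hr : 0 < r) (hf : M2 f)
    (hY : M2 fY) (hs : M2 fS) (hg : M2 g) (w0 : WD (Q r) (ee 0) f fY) (w1 : WD (Q r) (ee 1) f fS)
    (w2 : WD (Q r) (ee 0) fS g) {δ : ℝ} (hδ : 0 < δ) :
    ∃ η m : ℝ, 0 < η ∧ ∀ᵐ p, p ∈ Q η → |f p - m| ≤ δ := by
  have q1 : Measure.QuasiMeasurePreserving (Prod.fst : P → ℝ) volume volume :=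
    Measure.quasiMeasurePreserving_fst
  have sw : ∀ {p : P → Prop}, (∀ᵐ z : P, p z) → ∀ᵐ s, ∀ᵐ y, p (y, s) := fun h =>
    Measure.ae_ae_of_ae_prod ((Measure.measurePreserving_swap (μ := (volume : Measure ℝ))
      (ν := (volume : Measure ℝ))).quasiMeasurePreserving.ae h)
  obtain ⟨T₂, -, h2⟩ := (hF (-r) r (-r) r f fS hf hs).1 w1
  obtain ⟨T₁, -, h1⟩ := (hF (-r) r (-r) r f fY hf hY).2 w0
  have hB := Mix.one hS hs hg w2
  obtain ⟨C, C0, hB⟩ : ∃ C : ℝ, 0 ≤ C ∧ ∀ᵐ y, y ∈ Ioo (-r) r → slS (-r) r fS y ≤ C :=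
    ⟨_, mul_nonneg (Mix.K_nonneg _ _) (by positivity), hB⟩
  obtain ⟨η₁, p1, a1, a2⟩ : ∃ η₁ : ℝ, 0 < η₁ ∧ η₁ ≤ r ∧ 2 * η₁ ≤ (δ / 2) ^ 2 / (C + 1) :=
    ⟨min r ((δ / 2) ^ 2 / (C + 1) / 2), lt_min hr (by positivity), min_le_left _ _, by
      linarith [min_le_right r ((δ / 2) ^ 2 / (C + 1) / 2)]⟩
  obtain ⟨s₀, m0, b1, b2, b3⟩ := Measure.exists_mem_of_measure_ne_zero_of_ae
    (μ := volume) (s := Ioo (-η₁) η₁) (by simpa using p1)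
    (ae_restrict_of_ae ((sw h1).and ((sw h2).and (Slice.slL hY))))
  have C1 := slY_nonneg (-r) r fY s₀
  have m1 : s₀ ∈ Ioo (-r) r := ⟨by linarith [m0.1], by linarith [m0.2]⟩
  refine ⟨min η₁ ((δ / 2) ^ 2 / (slY (-r) r fY s₀ + 1)), T₁ s₀ + ∫ y in -r..0, fY (y, s₀),
    lt_min p1 (by positivity), ?_⟩
  filter_upwards [h2, q1.ae b1, q1.ae b2, q1.ae hB, q1.ae (Slice.slR hs)] with p c1 c2 c3 c4 c5 hp
  have hq : p ∈ Q η₁ := Q_mono (min_le_left _ _) hp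
  have hp' : p ∈ Q r := Q_mono a1 hq
  have d1 := small C0 (half_pos hδ) a2 ((cs c5 m1 hp'.2 (by positivity) (abs_le.2
    ⟨by linarith [hq.2.1, m0.2], by linarith [hq.2.2, m0.1]⟩)).trans
      (mul_le_mul_of_nonneg_left (c4 hp'.1) (by positivity)))
  have d2 := small C1 (half_pos hδ) le_rfl (cs b3 (x := 0) ⟨by linarith, hr⟩ hp'.1 (by positivity)
    (by rw [sub_zero]; exact ((mem_Q.1 hp).1.trans_le (min_le_right _ _)).le))
  have e1 := intervalIntegral.integral_add_adjacent_intervals (Slice.ii c5 (-r) s₀)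
    (Slice.ii c5 s₀ p.2)
  have e2 := intervalIntegral.integral_add_adjacent_intervals (Slice.ii b3 (-r) 0)
    (Slice.ii b3 0 p.1)
  have e3 := c1 hp'
  have e4 := c2 ⟨hp'.1, m1⟩
  have e5 := c3 ⟨hp'.1, m1⟩
  rw [abs_le] at d1 d2 ⊢
  constructor <;> linarith [d1.1, d1.2, d2.1, d2.2]

theorem lim {f : P → ℝ} (h : ∀ δ : ℝ, 0 < δ → ∃ η m : ℝ, 0 < η ∧ ∀ᵐ p, p ∈ Q η → |f p - m| ≤ δ) :
    ∃ f₀, El f f₀ := by
  simp only [El_iff]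
  rcases eN.eq_or_neBot with e | e
  · exact ⟨0, e ▸ tendsto_bot⟩
  · refine cauchy_map_iff_exists_tendsto.1 (Metric.cauchy_iff.2 ⟨inferInstance, fun ε hε => ?_⟩)
    obtain ⟨η, m, h0, h1⟩ := h (ε / 3) (by positivity)
    refine ⟨{x | |x - m| ≤ ε / 3}, mem_inf_of_inter (Metric.ball_mem_nhds 0 h0) h1
      fun p hp => hp.2 (Q_eq_ball η ▸ hp.1), fun x hx y hy => ?_⟩
    have a := abs_le.1 (show |x - m| ≤ ε / 3 from hx)
    have b := abs_le.1 (show |y - m| ≤ ε / 3 from hy)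
    rw [Real.dist_eq, abs_lt]
    constructor <;> linarith [a.1, a.2, b.1, b.2]

end Cont

open Cont in
theorem rowCont : OfCont := by
  intro hH hF hS hC r R f hr hR hf hb
  obtain ⟨g, hg⟩ := hH.1 _ 1 f R hf hR hb
  obtain ⟨gY, hY⟩ := hH.1 _ 0 (g 0) R (hg 0).1 hR (hg 0).2.2.2
  obtain ⟨gS, hs⟩ := hH.1 _ 0 (g 1) R (hg 1).1 hR (hg 1).2.2.2
  obtain ⟨k, k1, k2, k3⟩ := (hC r _ _ hr (hg 0).1 (hY 0).1 ((hY 0).2.2.1.mono (Qp_sub 0 r))).1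
  obtain ⟨l, l1, l2, l3⟩ := (hC r _ _ hr (hg 1).1 (hs 0).1 ((hs 0).2.2.1.mono (Qp_sub 0 r))).1
  refine ⟨lim fun δ hδ => osc hF hS hr hf (hg 0).1 (hg 1).1 (hs 0).1 (hg 0).2.2.1 (hg 1).2.2.1
    (hs 0).2.2.1 hδ, g 0, g 1, fun s => k s + l s, (hg 0).1, (hg 1).1, (hg 0).2.2.1,
    (hg 1).2.2.1, k1.add l1, fun s => add_nonneg (k2 s) (l2 s), ?_⟩
  filter_upwards [k3, l3] with p a b hp
  exact ⟨(a hp).trans (le_add_of_nonneg_right (l2 _)), (b hp).trans (le_add_of_nonneg_left (k2 _))⟩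

end Pool.Agent.MP_ed9623_an.H77
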