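import Pool.Agent.MP_ed9623_an.H77.SpecW

/-! Dual bounds pass to mollifications. -/

open MeasureTheory Filter Topology Set
open scoped ContDiff Pointwise

namespace Pool.Agent.MP_ed9623_an.H77

open H64

namespace MolH

theorem ker_refl {ε : ℝ} {k : P → ℝ} (hk : Ker ε k) : Ker ε fun z => k (0 - z) := by
  refine ⟨(hk.test.refl 0).mono fun z hz => ?_, fun x => hk.2.1 _, ?_⟩
  · have := hk.1.2.2 hz
    simpa using this
  · rw [integral_sub_left_eq_self k volume 0]
    exact hk.2.2

theorem mol_refl (k ψ : P → ℝ) (z : P) :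
    mol (fun z => k (0 - z)) ψ z = ∫ x, ψ x * k (x - z) := by
  simp only [mol, zero_sub, neg_sub]

theorem zero_off {k ψ : P → ℝ} {x z : P} (hz : z ∉ tsupport ψ - tsupport k) :
    ψ x * k (x - z) = 0 := by
  by_contra h
  obtain ⟨a, b⟩ := mul_ne_zero_iff.1 h
  exact hz ⟨x, subset_tsupport ψ a, x - z, subset_tsupport k b, by simp⟩

theorem cpt {k ψ : P → ℝ} {U V : Set P} (hk : Test U k) (hψ : Test V ψ) :
    IsCompact (tsupport ψ - tsupport k) := by
  have := (hψ.2.1.isCompact.prod hk.2.1.isCompact).image (f := fun p : P × P => p.1 - p.2)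
    (by fun_prop)
  rwa [image_prod (fun a b : P => a - b), image2_sub] at this

theorem swap {k f ψ : P → ℝ} {U V : Set P} (hk : Test U k) (hψ : Test V ψ) (hf : M2 f) :
    ∫ x, mol k f x * ψ x = ∫ z, f z * mol (fun z => k (0 - z)) ψ z := by
  have hK := cpt hk hψ
  have i1 : Integrable ((tsupport ψ - tsupport k).indicator f) :=
    (integrable_indicator_iff hK.measurableSet).2 (hf.loc.integrableOn_isCompact hK)
  have i2 : Integrable ψ := hψ.ct.integrable_of_hasCompactSupport hψ.2.1
  obtain ⟨C, -, hC⟩ := hk.bd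
  have i3 := (i2.mul_prod i1).mul_bdd (c := C) (g := fun p : P × P => k (p.1 - p.2))
    (hk.ct.comp (by fun_prop)).aestronglyMeasurable (Eventually.of_forall fun p => hC _)
  have i4 : Integrable (Function.uncurry fun x z : P => f z * (ψ x * k (x - z)))
      ((volume : Measure P).prod volume) := by
    refine i3.congr (Eventually.of_forall fun p => ?_)
    by_cases hp : p.2 ∈ tsupport ψ - tsupport k
    · simp only [indicator_of_mem hp, Function.uncurry]; ring
    · simp only [indicator_of_notMem hp, Function.uncurry, zero_off hp, mul_zero, zero_mul]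
  have := integral_integral_swap i4
  simp only [mol_refl, ← integral_const_mul]
  rw [← this]
  refine integral_congr_ae (Eventually.of_forall fun x => ?_)
  simp only [mol, ← integral_mul_const]
  exact integral_congr_ae (Eventually.of_forall fun z => by ring)

theorem test_mol (h1 : Mol1S) {O O' U : Set P} {k φ : P → ℝ} (hk : Test U k) (hφ : Test O' φ)
    (hO : ∀ x ∈ O', ∀ v ∈ tsupport k, x - v ∈ O) : Test O (mol (fun z => k (0 - z)) φ) := by
  have hK := cpt hk hφ
  have hs : tsupport (mol (fun z => k (0 - z)) φ) ⊆ tsupport φ - tsupport k := by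
    refine closure_minimal (fun z hz => ?_) hK.isClosed
    by_contra h
    exact hz (by simp only [mol_refl, zero_off h, integral_zero])
  refine ⟨((h1 _ (hk.top.refl 0).top).1 φ hφ.m2).1,
    hK.of_isClosed_subset (isClosed_tsupport _) hs, hs.trans ?_⟩
  rintro _ ⟨x, hx, v, hv, rfl⟩
  exact hO x (hφ.2.2 hx) v hv

theorem dl_mol (h1 : Mol1S) {O : Set P} {k φ : P → ℝ} (hk : Test univ k) (hφ : Test O φ)
    (l : List (Fin 2)) : DL l (mol k φ) = mol k (DL l φ) := by
  induction l with
  | nil => rfl
  | cons i l ih =>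
    rw [DL_cons, DL_cons, ih, ((h1 k hk).1 _ (hφ.DL l).m2).2]
    funext x
    exact mol_wd hk (WD.of_cd (contDiff_infty.1 (hφ.DL l).1 1) univ (ee i)) fun _ _ => trivial

end MolH

theorem rowMolH : OfMolH := by
  intro h1 h2 O O' ε k f n R hk hf hR hO hB l hl φ hφ
  have hk' := MolH.ker_refl hk
  rw [MolH.swap hk.1 (hφ.DL l) hf, ← MolH.dl_mol h1 hk'.test hφ]
  refine (hB l hl _ (MolH.test_mol h1 hk.1 hφ hO)).trans ?_
  exact mul_le_mul_of_nonneg_left (h2.2.1 ε _ φ hk' hφ.m2).2 hR

end Pool.Agent.MP_ed9623_an.H77
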