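import Pool.Agent.MP_ed9623_an.H77.SpecZ

/-! The identity theorem for functions that agree almost everywhere with analytic functions. -/

open MeasureTheory Filter Topology Set
open scoped ContDiff InnerProductSpace

namespace Pool.Agent.MP_ed9623_an.H77

open H64

theorem rowClop : OfClop := by
  rintro O f hO hc hA ⟨x₀, hx₀, ε₀, hε₀, hv₀⟩
  let Z : Set P := {x | ∃ N ∈ 𝓝 x, Van N f}
  have hZ : IsOpen Z := isOpen_iff_mem_nhds.2 fun x ⟨N, hN, hv⟩ =>
    (eventually_mem_nhds_iff.2 hN).mono fun y hy => ⟨N, hy, hv⟩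
  have hsub : O ⊆ Z := by
    refine hc.subset_of_closure_inter_subset hZ ⟨x₀, hx₀, _, Metric.ball_mem_nhds x₀ hε₀, hv₀⟩ ?_
    rintro x ⟨hx, hxO⟩
    obtain ⟨F, ε, hε, hF, hae⟩ := hA x hxO
    obtain ⟨δ, hδ, hball⟩ := Metric.mem_nhds_iff.1
      (inter_mem hF.eventually_analyticAt (Metric.ball_mem_nhds x hε))
    have hFa : AnalyticOnNhd ℝ F (Metric.ball x δ) := fun y hy => (hball hy).1
    obtain ⟨z, hz, N, hN, hv⟩ := mem_closure_iff_nhds.1 hx _ (Metric.ball_mem_nhds x hδ)
    obtain ⟨U, hU, hUo, hzU⟩ := mem_nhds_iff.1 (inter_mem hN (Metric.isOpen_ball.mem_nhds hz))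
    have h0 : EqOn F (fun _ => 0) U := by
      refine Measure.eqOn_open_of_ae_eq (μ := volume) ?_ hUo
        (hFa.continuousOn.mono fun y hy => (hU hy).2) continuousOn_const
      refine (ae_restrict_iff' hUo.measurableSet).2 ?_
      filter_upwards [hae, hv] with p a b hp
      rw [← a (hball (hU hp).2).2, b (hU hp).1]
    have h1 := hFa.eqOn_zero_of_preconnected_of_eventuallyEq_zero
      (convex_ball x δ).isPreconnected hz (eventually_of_mem (hUo.mem_nhds hzU) h0)
    refine ⟨_, Metric.ball_mem_nhds x hδ, ?_⟩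
    filter_upwards [hae] with p a hp
    rw [a (hball hp).2, h1 hp]
    rfl
  exact Van.of_loc fun x hx => hsub hx

end Pool.Agent.MP_ed9623_an.H77
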